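import Pool.Agent.W966.Vg.Stms

set_option autoImplicit false

/-! # Comparison of coefficients -/

namespace Pool.Agent.W320.VG

open MvPolynomial Pool.Agent.W966.Vg

theorem coeff_eval {Ω Ω' ι : Type} [Field Ω] [Field Ω'] [Algebra Ω Ω'] [Fintype ι] (u : ι → Ω')
    (G : MvPolynomial ι (PowerSeries Ω)) (j : ℕ) :
    PowerSeries.coeff j (MvPolynomial.eval₂ (PowerSeries.map (algebraMap Ω Ω'))
      (fun i => PowerSeries.C (u i)) G) =
      aeval u (∑ α ∈ G.support, monomial α (PowerSeries.coeff j (coeff α G))) := by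
  rw [MvPolynomial.eval₂_eq', map_sum, map_sum]
  apply Finset.sum_congr rfl
  intro α _
  have h1 : ∏ i, (PowerSeries.C (u i) : PowerSeries Ω') ^ α i =
      PowerSeries.C (∏ i, u i ^ α i) := by
    rw [map_prod]
    apply Finset.prod_congr rfl
    intro i _
    rw [map_pow]
  rw [h1, PowerSeries.coeff_mul_C, PowerSeries.coeff_map, MvPolynomial.aeval_monomial,
    Finsupp.prod_fintype _ _ (fun i => pow_zero _)]

theorem cmp : S_CMP := by
  intro Ω Ω' ι _ _ _ _ u H G y hu hG
  classical
  have hdvd : ∀ α, PowerSeries.X ^ H ∣ coeff α G := by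
    intro α
    rw [PowerSeries.X_pow_dvd_iff]
    intro j hj
    by_cases hα : α ∈ G.support
    · have h1 := coeff_eval u G j
      rw [hG, PowerSeries.coeff_X_pow_mul', if_neg (by omega)] at h1
      have h2 : (∑ α ∈ G.support, monomial α (PowerSeries.coeff j (coeff α G)) :
          MvPolynomial ι Ω) = 0 := by
        apply hu
        rw [← h1, map_zero]
      have h3 := congrArg (coeff α) h2
      rw [MvPolynomial.coeff_sum, MvPolynomial.coeff_zero] at h3
      simp only [MvPolynomial.coeff_monomial] at h3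
      rw [Finset.sum_ite_eq', if_pos hα] at h3
      exact h3
    · rw [MvPolynomial.notMem_support_iff.1 hα, map_zero]
  obtain ⟨F, hF⟩ := (MvPolynomial.C_dvd_iff_dvd_coeff _ _).2 hdvd
  refine ⟨F, hF, ?_⟩
  have h4 : PowerSeries.X ^ H * MvPolynomial.eval₂ (PowerSeries.map (algebraMap Ω Ω'))
      (fun i => PowerSeries.C (u i)) F = PowerSeries.X ^ H * y := by
    rw [← hG, hF, MvPolynomial.eval₂_mul, MvPolynomial.eval₂_C, map_pow, PowerSeries.map_X]
  have h5 := mul_left_cancel₀ (pow_ne_zero H PowerSeries.X_ne_zero) h4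
  rw [← h5, MvPolynomial.eval₂_comp_left, MvPolynomial.aeval_def, MvPolynomial.eval₂_map]
  have h6 : (PowerSeries.constantCoeff (R := Ω')).comp (PowerSeries.map (algebraMap Ω Ω')) =
      (algebraMap Ω Ω').comp (PowerSeries.constantCoeff (R := Ω)) := by
    ext p
    simp only [RingHom.comp_apply, ← PowerSeries.coeff_zero_eq_constantCoeff_apply,
      PowerSeries.coeff_map]
  have h7 : (PowerSeries.constantCoeff (R := Ω') : PowerSeries Ω' → Ω') ∘
      (fun i => PowerSeries.C (u i)) = u := by
    funext i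
    simp
  rw [h6, h7]

end Pool.Agent.W320.VG
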