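import Pool.Agent.W966.Vg.Stms

set_option autoImplicit false

/-! # Polynomial identities for computations pass to larger fields -/

namespace Pool.Agent.W320.VG

open MvPolynomial Pool.Agent.W966.Vg

theorem val_congr {K ι R : Type} [CommRing K] [CommRing R] [Algebra K R] [Fintype ι] (f : LF K ι)
    (x : ι → R) (l : ℕ) {g g' : ℕ → R} (h : ∀ s < l, g s = g' s) : f.val x l g = f.val x l g' := by
  unfold LF.val
  congr 1
  apply Finset.sum_congr rfl
  intro s hs
  rw [h s (Finset.mem_range.1 hs)]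

theorem exists_g {Z ι : Type} [CommRing Z] [Fintype ι] (A B : ℕ → LF Z ι) (M : ℕ) :
    ∃ g : ℕ → MvPolynomial ι Z, ∀ r < M, g r = (A r).val X r g * (B r).val X r g := by
  induction M with
  | zero => exact ⟨fun _ => 0, fun r hr => absurd hr (by omega)⟩
  | succ M ih =>
    obtain ⟨g, hg⟩ := ih
    refine ⟨Function.update g M ((A M).val X M g * (B M).val X M g), ?_⟩
    intro r hr
    have key : ∀ s < r, Function.update g M ((A M).val X M g * (B M).val X M g) s = g s := by
      intro s hs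
      rw [Function.update_of_ne (by omega)]
    rw [val_congr (A r) X r key, val_congr (B r) X r key]
    rcases Nat.lt_succ_iff_lt_or_eq.1 hr with h | h
    · rw [Function.update_of_ne (by omega)]
      exact hg r h
    · subst h
      rw [Function.update_self]

/-- change of coefficients -/
def mapLF {Z Q ι : Type} (φ : Z → Q) (f : LF Z ι) : LF Q ι :=
  ⟨φ f.c, fun i => φ (f.x i), fun s => φ (f.r s)⟩

theorem map_val {Z Q ι : Type} [CommRing Z] [CommRing Q] [Fintype ι] (φ : Z →+* Q) (f : LF Z ι)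
    (l : ℕ) (g : ℕ → MvPolynomial ι Z) :
    MvPolynomial.map φ (f.val X l g) =
      (mapLF φ f).val X l (fun s => MvPolynomial.map φ (g s)) := by
  unfold LF.val mapLF
  simp only [MvPolynomial.algebraMap_eq, map_add, map_sum, map_mul, MvPolynomial.map_C,
    MvPolynomial.map_X]

theorem map_comp {Z Q ι : Type} [CommRing Z] [CommRing Q] [Fintype ι] (φ : Z →+* Q)
    (A B : ℕ → LF Z ι) (M : ℕ) (g : ℕ → MvPolynomial ι Z)
    (hg : ∀ r < M, g r = (A r).val X r g * (B r).val X r g) :
    ∀ r < M, MvPolynomial.map φ (g r) =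
      (mapLF φ (A r)).val X r (fun s => MvPolynomial.map φ (g s)) *
      (mapLF φ (B r)).val X r (fun s => MvPolynomial.map φ (g s)) := by
  intro r hr
  rw [← map_val, ← map_val, ← map_mul, ← hg r hr]

/-- specialisation of a computation -/
theorem ns_map {Z Q ι V : Type} [CommRing Z] [CommRing Q] [Fintype ι] (φ : Z →+* Q)
    (A B : ℕ → LF Z ι) (O : V → LF Z ι) (M : ℕ) (g : ℕ → MvPolynomial ι Z)
    (hg : ∀ r < M, g r = (A r).val X r g * (B r).val X r g) :
    NSComp Q ι V M (fun v => MvPolynomial.map φ ((O v).val X M g)) :=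
  ⟨fun r => mapLF φ (A r), fun r => mapLF φ (B r), fun v => mapLF φ (O v),
    fun s => MvPolynomial.map φ (g s), map_comp φ A B M g hg, fun v => map_val φ (O v) M g⟩

/-- every computation is a specialisation -/
theorem ns_eq {Z Q ι V : Type} [CommRing Z] [CommRing Q] [Fintype ι] (φ : Z →+* Q)
    (A B : ℕ → LF Z ι) (O : V → LF Z ι) (M : ℕ) (g : ℕ → MvPolynomial ι Z)
    (hg : ∀ r < M, g r = (A r).val X r g * (B r).val X r g)
    (g' : ℕ → MvPolynomial ι Q)
    (hg' : ∀ r < M, g' r = (mapLF φ (A r)).val X r g' * (mapLF φ (B r)).val X r g') (v : V) :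
    (mapLF φ (O v)).val X M g' = MvPolynomial.map φ ((O v).val X M g) := by
  have hgg : ∀ r < M, g' r = MvPolynomial.map φ (g r) := by
    intro r
    induction r using Nat.strong_induction_on with
    | _ r ih =>
      intro hr
      rw [map_comp φ A B M g hg r hr, hg' r hr]
      have ih' : ∀ s < r, g' s = MvPolynomial.map φ (g s) := fun s hs => ih s hs (by omega)
      rw [val_congr (mapLF φ (A r)) X r ih', val_congr (mapLF φ (B r)) X r ih']
  rw [map_val, val_congr (mapLF φ (O v)) X M hgg]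

/-- the indices of the coefficients of a computation -/
abbrev Ty (ι V : Type) : Type := ((ℕ × Bool) ⊕ V) × (Unit ⊕ ι ⊕ ℕ)

/-- the coefficients of the linear combination `t` -/
def mk {Q ι V : Type} (z : Ty ι V → Q) (t : (ℕ × Bool) ⊕ V) : LF Q ι :=
  ⟨z (t, Sum.inl ()), fun i => z (t, Sum.inr (Sum.inl i)), fun s => z (t, Sum.inr (Sum.inr s))⟩

/-- a computation as a point -/
def pt {Q ι V : Type} (a b : ℕ → LF Q ι) (o : V → LF Q ι) : Ty ι V → Q
  | (Sum.inl (r, true), Sum.inl _) => (a r).c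
  | (Sum.inl (r, true), Sum.inr (Sum.inl i)) => (a r).x i
  | (Sum.inl (r, true), Sum.inr (Sum.inr s)) => (a r).r s
  | (Sum.inl (r, false), Sum.inl _) => (b r).c
  | (Sum.inl (r, false), Sum.inr (Sum.inl i)) => (b r).x i
  | (Sum.inl (r, false), Sum.inr (Sum.inr s)) => (b r).r s
  | (Sum.inr v, Sum.inl _) => (o v).c
  | (Sum.inr v, Sum.inr (Sum.inl i)) => (o v).x i
  | (Sum.inr v, Sum.inr (Sum.inr s)) => (o v).r s

theorem mapLF_mk {Z Q ι V : Type} (φ : Z → Q) (z : Ty ι V → Z) (w : Ty ι V → Q)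
    (h : ∀ t, φ (z t) = w t) (t : (ℕ × Bool) ⊕ V) : mapLF φ (mk z t) = mk w t := by
  unfold mapLF mk
  simp only [h]

theorem aev {K σ : Type} [Field K] (z : σ → K) (p : MvPolynomial σ K) : aeval z p = eval z p := by
  rw [MvPolynomial.aeval_def, Algebra.algebraMap_self]
  rfl

/-- the evaluation at a point, as a ring homomorphism -/
noncomputable def ev {K Q σ : Type} [Field K] [CommRing Q] [Algebra K Q] (z : σ → Q) :
    MvPolynomial σ K →+* Q := (aeval z : MvPolynomial σ K →ₐ[K] Q).toRingHom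

theorem ev_X {K Q σ : Type} [Field K] [CommRing Q] [Algebra K Q] (z : σ → Q) (t : σ) :
    ev (K := K) z (X t) = z t := aeval_X z t

theorem ev_aeval {K Q σ τ : Type} [Field K] [CommRing Q] [Algebra K Q] (z : σ → Q)
    (c : τ → MvPolynomial σ K) (h : MvPolynomial τ K) :
    ev (K := K) z (aeval c h) = aeval (fun p => ev (K := K) z (c p)) h := by
  have := MvPolynomial.comp_aeval_apply c (aeval z : MvPolynomial σ K →ₐ[K] Q) h
  exact this

/-- the universal coefficients -/
noncomputable def xs (K ι V : Type) [Field K] : Ty ι V → MvPolynomial (Ty ι V) K := fun t => X t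

theorem clos : S_CLOS := by
  intro K P ι V _ _ _ _ _ _ M h hK f hf
  obtain ⟨g, hg⟩ := exists_g (Z := MvPolynomial (Ty ι V) K) (ι := ι)
    (fun r => mk (xs K ι V) (Sum.inl (r, true)))
    (fun r => mk (xs K ι V) (Sum.inl (r, false))) M
  obtain ⟨Fu, hFu⟩ : ∃ Fu : V → MvPolynomial ι (MvPolynomial (Ty ι V) K),
      ∀ v, Fu v = (mk (xs K ι V) (Sum.inr v)).val X M g :=
    ⟨fun v => (mk (xs K ι V) (Sum.inr v)).val X M g, fun _ => rfl⟩
  obtain ⟨Hh, hHh⟩ : ∃ Hh : MvPolynomial (Ty ι V) K,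
      Hh = aeval (fun p : V × (ι →₀ ℕ) => coeff p.2 (Fu p.1)) h := ⟨_, rfl⟩
  have hz : Hh = 0 := by
    apply MvPolynomial.funext
    intro z
    rw [map_zero]
    have h1 := ev_aeval (K := K) z (fun p : V × (ι →₀ ℕ) => coeff p.2 (Fu p.1)) h
    rw [← hHh] at h1
    have h2 := hK _ (ns_map (ev (K := K) z)
      (fun r => mk (xs K ι V) (Sum.inl (r, true)))
      (fun r => mk (xs K ι V) (Sum.inl (r, false)))
      (fun v => mk (xs K ι V) (Sum.inr v)) M g hg)
    rw [← aev]
    have h3 : (aeval z : MvPolynomial (Ty ι V) K →ₐ[K] K) Hh = ev (K := K) z Hh := rfl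
    rw [h3, h1, aev]
    refine Eq.trans ?_ h2
    congr 2
    funext p
    rw [MvPolynomial.coeff_map, hFu]
  obtain ⟨a, b, o, g', hg', hf⟩ := hf
  have hz2 := ev_aeval (K := K) (pt a b o) (fun p : V × (ι →₀ ℕ) => coeff p.2 (Fu p.1)) h
  rw [← hHh, hz, map_zero] at hz2
  have e1 : ∀ r, mapLF (ev (K := K) (pt a b o)) (mk (xs K ι V) (Sum.inl (r, true))) =
      a r := fun r => mapLF_mk _ _ (pt a b o) (fun t => ev_X _ t) _
  have e2 : ∀ r, mapLF (ev (K := K) (pt a b o)) (mk (xs K ι V) (Sum.inl (r, false))) =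
      b r := fun r => mapLF_mk _ _ (pt a b o) (fun t => ev_X _ t) _
  have e3 : ∀ v, mapLF (ev (K := K) (pt a b o)) (mk (xs K ι V) (Sum.inr v)) =
      o v := fun v => mapLF_mk _ _ (pt a b o) (fun t => ev_X _ t) _
  have hff : ∀ v, f v = MvPolynomial.map (ev (K := K) (pt a b o)) (Fu v) := by
    intro v
    rw [hf v, hFu, ← e3 v]
    apply ns_eq (ev (K := K) (pt a b o))
      (fun r => mk (xs K ι V) (Sum.inl (r, true)))
      (fun r => mk (xs K ι V) (Sum.inl (r, false)))
      (fun v => mk (xs K ι V) (Sum.inr v)) M g hg g'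
    intro r hr
    simp only [e1, e2]
    exact hg' r hr
  rw [hz2]
  congr 2
  funext p
  rw [hff, MvPolynomial.coeff_map]

end Pool.Agent.W320.VG
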